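import Mathlib
import Pool.Agent.Helper52.TriI

set_option autoImplicit false

open MeasureTheory ProbabilityTheory Filter Topology Set
open scoped ENNReal NNReal BoundedContinuousFunction

namespace Pool.Agent.Results.MP_db3298_pr.InitialStateMatters

/-! ### The model

Servers are `0, 1, 2 : Fin 3` (addition is cyclic). A class-`c` customer may be served by its left
server `c` or by its right server `c + 1`.  -/

/-- Workload vectors of the three servers. -/
abbrev Load := Fin 3 → ℝ

/-- Workloads after `t` time units without arrivals: each server works at unit rate while its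
workload is positive. -/
noncomputable def drain (x : Load) (t : ℝ) : Load := fun i => max (x i - t) 0

open Classical in
/-- Arrival of a customer with mark `k = (c, (l, r))`: its class is `c`, its service time is `l` if
it joins its left server `c` and `r` if it joins its right server `c + 1`. It joins the accessible
server with the smaller current workload; ties go to the right server. -/
noncomputable def join (x : Load) (k : Fin 3 × (ℝ × ℝ)) : Load :=
  if x k.1 < x (k.1 + 1) then Function.update x k.1 (x k.1 + k.2.1)
  else Function.update x (k.1 + 1) (x (k.1 + 1) + k.2.2)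

/-- Epoch of the `n`-th arrival (`arr ω 0 = 0`); `(ω n).1` is the `n`-th interarrival time and
`(ω n).2` the mark of the customer arriving at its end. -/
noncomputable def arr {K : Type*} (ω : ℕ → ℝ × K) (n : ℕ) : ℝ := ∑ k ∈ Finset.range n, (ω k).1

/-- Number of arrivals up to time `t`: the least `n` such that arrival `n + 1` comes after `t`. -/
noncomputable def count {K : Type*} (ω : ℕ → ℝ × K) (t : ℝ) : ℕ := sInf {n : ℕ | t < arr ω (n + 1)}

/-- Workload vector just after the `n`-th arrival, from the initial vector `w` at time `0`. -/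
noncomputable def after (w : Load) (ω : ℕ → ℝ × (Fin 3 × (ℝ × ℝ))) : ℕ → Load
  | 0 => w
  | n + 1 => join (drain (after w ω n) (ω n).1) (ω n).2

/-- Workload vector `W(t)` from `W(0) = w`. -/
noncomputable def workload (w : Load) (ω : ℕ → ℝ × (Fin 3 × (ℝ × ℝ))) (t : ℝ) : Load :=
  drain (after w ω (count ω t)) (t - arr ω (count ω t))

/-- Law of a mark: uniform class, independent service times with laws `Fl` (left) and `Fr` (right). -/
noncomputable def markLaw (Fl Fr : Measure ℝ) : Measure (Fin 3 × (ℝ × ℝ)) :=
  (PMF.uniformOfFintype (Fin 3)).toMeasure.prod (Fl.prod Fr)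

/-- Law of the input: i.i.d. pairs of an exponential(`lam`) interarrival time and an independent mark. -/
noncomputable def law (lam : ℝ) (Fl Fr : Measure ℝ) : Measure (ℕ → ℝ × (Fin 3 × (ℝ × ℝ))) :=
  Measure.infinitePi (fun _ => (expMeasure lam).prod (markLaw Fl Fr))

/-- Stability from `w`: the law of `W(t)` converges weakly, as `t → ∞`, to a probability measure
on the nonnegative vectors. -/
def Stable (lam : ℝ) (Fl Fr : Measure ℝ) (w : Load) : Prop :=
  ∃ π : Measure Load, IsProbabilityMeasure π ∧ π {x | ∀ i, 0 ≤ x i} = 1 ∧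
    ∀ g : Load →ᵇ ℝ, Tendsto (fun t : ℝ => ∫ ω, g (workload w ω t) ∂(law lam Fl Fr)) atTop
      (𝓝 (∫ x, g x ∂π))


open Pool.Agent.Helper52 in
theorem after_eq (w : Load) (ω : ℕ → ℝ × (Fin 3 × (ℝ × ℝ))) (n : ℕ) :
    after w ω n = Tri.gafter Tri.drain Tri.join w ω n := by
  induction n with
  | zero => rfl
  | succ n ih => simp only [after, Tri.gafter, ih]; rfl

open Pool.Agent.Helper52 in
theorem workload_eq (w : Load) (ω : ℕ → ℝ × (Fin 3 × (ℝ × ℝ))) (t : ℝ) :
    workload w ω t = Tri.gW Tri.drain Tri.join w ω t := by
  unfold workload Tri.gW; rw [after_eq]; rfl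

/-- **Q1 has a positive answer.** With `lam = 19/10`, all left service times equal to `1`, all right
service times equal to `2` and ties broken to the right, the system is stable from `w = 0` and not
stable from `w' = (100000, 100000, 100000)`. For every `k` and every sufficiently large `t`, the
probability that all three workloads at time `t`, started from `w'`, exceed `k` is at least `1/2`. -/
theorem result :
    ∃ (lam : ℝ) (Fl Fr : Measure ℝ) (w w' : Load),
      lam = 19 / 10 ∧ Fl = Measure.dirac 1 ∧ Fr = Measure.dirac 2 ∧ w = 0 ∧ w' = (fun _ => 100000) ∧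
      0 < lam ∧ IsProbabilityMeasure Fl ∧ IsProbabilityMeasure Fr ∧ Fl (Iic 0) = 0 ∧ Fr (Iic 0) = 0 ∧
      Integrable (fun x => x) Fl ∧ Integrable (fun x => x) Fr ∧ (∀ i, 0 ≤ w i) ∧ (∀ i, 0 ≤ w' i) ∧
      Stable lam Fl Fr w ∧ ¬ Stable lam Fl Fr w' ∧
      (∀ k : ℝ, ∀ᶠ t : ℝ in atTop, 1 / 2 ≤ law lam Fl Fr {ω | ∀ i, k < workload w' ω t i}) := by
  have hlaw : law (19 / 10) (Measure.dirac 1) (Measure.dirac 2) = Pool.Agent.Helper52.Tri.PP Pool.Agent.Helper52.Tri.lam0 := rfl
  refine ⟨19 / 10, Measure.dirac 1, Measure.dirac 2, 0, fun _ => 100000, rfl, rfl, rfl, rfl, rfl, by norm_num,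
    inferInstance, inferInstance, ?_, ?_, ?_, ?_, fun i => le_rfl, fun i => by norm_num, ?_, ?_, ?_⟩
  · rw [Measure.dirac_apply' _ measurableSet_Iic, indicator_of_notMem (by norm_num)]
  · rw [Measure.dirac_apply' _ measurableSet_Iic, indicator_of_notMem (by norm_num)]
  · exact integrable_dirac (by simp)
  · exact integrable_dirac (by simp)
  · obtain ⟨π, h1, h2, h3⟩ := Pool.Agent.Helper52.Tri.stable_conv Pool.Agent.Helper52.Tri.lam0_pos
      Pool.Agent.Helper52.Tri.rate_stable
    refine ⟨π, h1, h2, fun g => ?_⟩
    rw [hlaw]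
    simp only [workload_eq]
    exact h3 g
  · rintro ⟨π, h1, h2, h3⟩
    refine Pool.Agent.Helper52.Tri.not_conv (Pool.Agent.Helper52.Tri.Lat_const 100000) Pool.Agent.Helper52.Tri.E0_lt ⟨π, h1, fun g => ?_⟩
    have := h3 g
    rw [hlaw] at this
    simp only [workload_eq] at this
    exact this
  · intro k
    have := Pool.Agent.Helper52.Tri.escape_event (Pool.Agent.Helper52.Tri.Lat_const 100000)
      Pool.Agent.Helper52.Tri.E0_lt k
    rw [hlaw]
    simp only [workload_eq]
    exact this

end Pool.Agent.Results.MP_db3298_pr.InitialStateMatters
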